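import Pool.Agent.V7H35.CollatzCount
import Pool.Agent.N375.AV.D
import Pool.Agent.N375.AV.Ex

/-!
# The `3x+1` map in logarithmic time near the values of additive functions and their compositions

Let `F = f_1 ∘ ⋯ ∘ f_k` be a composition of functions dominated by the largest prime factor: for example additive functions
`f` with `f (q^j) ≤ C q^j` at the prime powers, with different values at different large primes (the sum of the prime
factors), the largest prime factor itself, and Kempner's function. Let `G` have steps bounded below by a positive constant and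
growth at most `v ^ d`, for example `G v = v`, and `κ ≥ 0`.

* For every `ε > 0` there is `c > 0` such that, if `d (1 - min v (c δ)) + κ < 1`, then for all `m ≤ N` but
  `K N exp (- b (log N)^(1 / (k + 1)))` the trajectory of EVERY integer `n ≥ 1` with `|n - G (F m)| ≤ F(m) ^ κ` follows the law
  of the random walk: it reaches a value `≤ n^δ` in at most `(1 + ε) (2 / log (4/3)) log n` steps, and until then `log T^j n`
  is `log n - (j/2) log (4/3)` up to `ε log n`, and `T^j n ≤ n^(1+v)`.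
* Let `B` be large, `0 < δ ≤ 1` and `d (1 - 0.06 δ) + κ < 1`. Then for all `m ≤ N` but
  `K N exp (- b (log N)^(1 / (k + 1)))` the conjectured inequality is inherited by EVERY such `n`: `n` reaches some `u ≤ n^δ` in
  at most `B log (n / u)` steps; so `n` reaches `1` in at most `B log n` steps, if `u` reaches `1` in at most `B log u` steps.

The values of `F` are taken with very large multiplicities and `F(m)` is in general much smaller than `m`; and so this does
not follow from the sizes of the exceptional sets.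
-/

set_option autoImplicit false

namespace Pool.Agent.Results.MP_a1568a_nt.AdditiveValuesH35

open Pool.Agent.Results.MP_a1568a_nt.PowerSavingLaw (T Regular)
open Pool.Agent.Results.MP_a1568a_nt.MultiplicativeValues (Descends Fast)
open Pool.Agent.V7H35.CollatzCount (regular_count descent_count inherit)
open Pool.Agent.N733.TG (Expanding expanding_pow)
open Pool.Agent.N375.AV (PD comp good pd_additive pd_largest pd_kempner)

/-- **Trajectories near the values of additive functions.** Let `f_i` be functions dominated by the largest prime factor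
(`PD`), `F = f_1 ∘ ⋯ ∘ f_k` (`comp fs`), `G` with steps `≥ const > 0` and growth at most `v ^ d`, and `κ ≥ 0`. (1) For every
`ε > 0` there is `c > 0`, not depending on `F`, `G`, such that for `0 < v ≤ 1`, `δ > 0` and `d (1 - min v (c δ)) + κ < 1`, for all
`m ≤ N` but `K N exp (- b (log N)^(1 / (k + 1)))`, EVERY integer `n ≥ 1` with `|n - G (F m)| ≤ F(m) ^ κ` satisfies
`Regular ε (n^δ) (n^(1+v))`. (2) There is `B₁` such that for `B ≥ B₁`, `0 < δ ≤ 1` and `d (1 - 0.06 δ) + κ < 1`, for all `m ≤ N`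
but `K N exp (- b (log N)^(1 / (k + 1)))`, EVERY such `n` reaches some `u ≤ n^δ` after at most `B log (n / u)` steps. (3) Such
an `n` reaches `1` after at most `B log n` steps, if this is true for all `u ≤ n^δ`. (4) - (6) Examples of functions `f_i` and
`G`. -/
theorem result :
    (∀ ε : ℝ, 0 < ε → ∃ c : ℝ, 0 < c ∧
      ∀ fs : List (ℕ → ℕ), (∀ f ∈ fs, PD f) → ∀ (G : ℕ → ℝ) (d : ℝ), Expanding G d → ∀ v δ κ : ℝ, 0 < v → v ≤ 1 → 0 < δ →
        0 ≤ κ → d * (1 - min v (c * δ)) + κ < 1 → ∃ b K : ℝ, 0 < b ∧ ∀ N : ℕ, 1 ≤ N →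
          ({m : ℕ | 1 ≤ m ∧ m ≤ N ∧ ¬ ∀ n : ℕ, 1 ≤ n → |(n : ℝ) - G (comp fs m)| ≤ (comp fs m : ℝ) ^ κ →
            Regular ε ((n : ℝ) ^ δ) ((n : ℝ) ^ (1 + v)) n}.ncard : ℝ) ≤
          K * N * Real.exp (-(b * Real.log N ^ ((1 : ℝ) / (fs.length + 1))))) ∧
    (∃ B₁ : ℝ, 0 < B₁ ∧ ∀ B : ℝ, B₁ ≤ B →
      ∀ fs : List (ℕ → ℕ), (∀ f ∈ fs, PD f) → ∀ (G : ℕ → ℝ) (d : ℝ), Expanding G d → ∀ δ κ : ℝ, 0 < δ → δ ≤ 1 → 0 ≤ κ →
        d * (1 - 6 / 100 * δ) + κ < 1 → ∃ b K : ℝ, 0 < b ∧ ∀ N : ℕ, 1 ≤ N →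
          ({m : ℕ | 1 ≤ m ∧ m ≤ N ∧ ¬ ∀ n : ℕ, 1 ≤ n → |(n : ℝ) - G (comp fs m)| ≤ (comp fs m : ℝ) ^ κ →
            Descends B ((n : ℝ) ^ δ) n}.ncard : ℝ) ≤
          K * N * Real.exp (-(b * Real.log N ^ ((1 : ℝ) / (fs.length + 1))))) ∧
    (∀ (B δ : ℝ) (n : ℕ), 1 ≤ n → Descends B ((n : ℝ) ^ δ) n →
      (∀ u : ℕ, 1 ≤ u → (u : ℝ) ≤ (n : ℝ) ^ δ → Fast B u) → Fast B n) ∧
    (∀ f : ℕ → ℕ, (∀ a b : ℕ, Nat.Coprime a b → f (a * b) = f a + f b) →
      (∃ C : ℕ, ∀ q j : ℕ, q.Prime → 1 ≤ j → f (q ^ j) ≤ C * q ^ j) →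
      (∃ P : ℕ, ∀ p q : ℕ, p.Prime → q.Prime → P ≤ p → P ≤ q → f p = f q → p = q) → PD f) ∧
    (PD (fun n => n.primeFactors.sup id) ∧ PD (fun n => sInf {k : ℕ | n ∣ k.factorial})) ∧
    ∀ a d : ℝ, 0 < a → 1 ≤ d → Expanding (fun v => a * (v : ℝ) ^ d) d := by
  refine ⟨fun ε hε => ?_, ?_, inherit, fun f a1 a2 a3 => pd_additive a1 a2 a3, ⟨pd_largest, pd_kempner⟩,
    fun a d ha hd => expanding_pow ha hd⟩
  · obtain ⟨c, hc, h⟩ := regular_count hε
    refine ⟨c, hc, fun fs hfs G d hG v δ κ hv hv1 hδ hκ h1 => ?_⟩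
    exact good (fun n : ℕ => 1 ≤ n) (fun n => Regular ε ((n : ℝ) ^ δ) ((n : ℝ) ^ (1 + v)) n) (fun n : ℕ => (n : ℝ)) fs hfs
      hG (s := 1 - min v (c * δ)) (κ := κ) (by linarith [min_le_left v (c * δ)]) hκ h1 (h v δ hv hv1 hδ)
  · obtain ⟨B₁, hB₁, h⟩ := descent_count
    refine ⟨B₁, hB₁, fun B hB fs hfs G d hG δ κ hδ hδ1 hκ h1 => ?_⟩
    exact good (fun n : ℕ => 1 ≤ n) (fun n => Descends B ((n : ℝ) ^ δ) n) (fun n : ℕ => (n : ℝ)) fs hfs hG
      (s := 1 - 6 / 100 * δ) (κ := κ) (by linarith) hκ h1 (h B hB δ hδ hδ1)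

end Pool.Agent.Results.MP_a1568a_nt.AdditiveValuesH35
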