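import Pool.Agent.V7H35.CollatzCount
import Pool.Agent.N671.DA.Win

/-!
# The `3x+1` map in logarithmic time at all integers near functions of the denominators of good approximations

Let `α_1, …, α_m` be real numbers. We consider the natural numbers `q` with `‖q α_j - β_j‖ ≤ b q^(-τ)` for all `j`, `‖x‖` the
distance to the nearest integer; for `β = 0`, `b = 1`, `τ = 1 / m` these include the denominators of all best simultaneous
approximations (the denominators of the convergents for `m = 1`). They form a very sparse sequence, with gaps growing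
exponentially for almost all `α` if `τ = 1 / m`. Let `G` have steps bounded below by a positive constant and growth at most
`v^d`, for example `G(q) = q` or `G(q) = a q^d`.

* For every `ε > 0` there is `c > 0` such that for `0 < v ≤ 1`, `δ > 0` and all `α` in `ℝ^m` outside a set of Hausdorff
  dimension at most `(m + d (1 - min v (c δ)) + κ) / (1 + τ)`, for all but finitely many such `q`, the trajectory of EVERY
  integer `n ≥ 1` with `|n - G q| ≤ q^κ` follows the law of the random walk: it reaches a value `≤ n^δ` in at most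
  `(1 + ε) (2 / log (4/3)) log n` steps, and until then `log T^j n` is `log n - (j/2) log (4/3)` up to `ε log n`, and
  `T^j n ≤ n^(1+v)`.
* Let `B` be large and `0 < δ ≤ 1`. For all `α` outside a set of Hausdorff dimension at most
  `(m + d (1 - 0.06 δ) + κ) / (1 + τ)` and all but finitely many such `q` the conjectured inequality is inherited by EVERY such
  `n`: `n` reaches some `u ≤ n^δ` in at most `B log (n / u)` steps; so `n` reaches `1` in at most `B log n` steps, if this is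
  true for all `u ≤ n^δ`.

For `τ = 1 / m`, `d = 1` and small `κ` the bounds are smaller than `m`, and so this holds for almost all `α`, for instance for
all large denominators of convergents of almost all real numbers.
-/

set_option autoImplicit false

namespace Pool.Agent.Results.MP_a1568a_nt.GoodApproximationsH35

open Pool.Agent.Results.MP_a1568a_nt.PowerSavingLaw (T Regular)
open Pool.Agent.Results.MP_a1568a_nt.MultiplicativeValues (Descends Fast)
open Pool.Agent.V7H35.CollatzCount (regular_count descent_count inherit)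
open Pool.Agent.N671.DA (Solves Expanding expanding_pow approx_good)

/-- **Trajectories near the denominators of good approximations.** Let `G` have steps `≥ const > 0` and growth at most `v^d`,
`0 ≤ κ ≤ 1`, `β` in `ℝ^m` and `τ > 0`. (1) For every `ε > 0` there is `c > 0`, not depending on `G`, `m`, `β`, `τ`, such that for
`0 < v ≤ 1` and `δ > 0`, for all `α` in `ℝ^m` outside a set of Hausdorff dimension at most
`(m + d (1 - min v (c δ)) + κ) / (1 + τ)` and all `b`, for all large `q` with `‖q α_j - β_j‖ ≤ b q^(-τ)` for all `j`, EVERY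
integer `n ≥ 1` with `|n - G q| ≤ q^κ` satisfies `Regular ε (n^δ) (n^(1+v))`. (2) There is `B₁` such that for `B ≥ B₁` and
`0 < δ ≤ 1`, for all `α` in `ℝ^m` outside a set of Hausdorff dimension at most `(m + d (1 - 0.06 δ) + κ) / (1 + τ)` and all `b`,
for all large such `q`, EVERY integer `n ≥ 1` with `|n - G q| ≤ q^κ` reaches some `u ≤ n^δ` after at most `B log (n / u)`
steps. (3) Such an `n` reaches `1` after at most `B log n` steps, if this is true for all `u ≤ n^δ`. (4) The functions `a v^d`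
with `a > 0`, `d ≥ 1` are examples of `G`. -/
theorem result :
    (∀ ε : ℝ, 0 < ε → ∃ c : ℝ, 0 < c ∧
      ∀ (G : ℕ → ℝ) (d : ℝ), Expanding G d → ∀ κ : ℝ, 0 ≤ κ → κ ≤ 1 →
      ∀ (m : ℕ) (β : Fin m → ℝ) (τ : ℝ), 0 < τ → ∀ v δ : ℝ, 0 < v → v ≤ 1 → 0 < δ →
      ∃ E : Set (Fin m → ℝ), dimH E ≤ ENNReal.ofReal ((m + (d * (1 - min v (c * δ)) + κ)) / (1 + τ)) ∧
        ∀ α, α ∉ E → ∀ b : ℝ, ∃ Q : ℕ, ∀ q : ℕ, Q ≤ q → Solves α β q (b * (q : ℝ) ^ (-τ)) →
          ∀ n : ℕ, 1 ≤ n → |(n : ℝ) - G q| ≤ (q : ℝ) ^ κ → Regular ε ((n : ℝ) ^ δ) ((n : ℝ) ^ (1 + v)) n) ∧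
    (∃ B₁ : ℝ, 0 < B₁ ∧ ∀ B : ℝ, B₁ ≤ B →
      ∀ (G : ℕ → ℝ) (d : ℝ), Expanding G d → ∀ κ : ℝ, 0 ≤ κ → κ ≤ 1 →
      ∀ (m : ℕ) (β : Fin m → ℝ) (τ : ℝ), 0 < τ → ∀ δ : ℝ, 0 < δ → δ ≤ 1 →
      ∃ E : Set (Fin m → ℝ), dimH E ≤ ENNReal.ofReal ((m + (d * (1 - 6 / 100 * δ) + κ)) / (1 + τ)) ∧
        ∀ α, α ∉ E → ∀ b : ℝ, ∃ Q : ℕ, ∀ q : ℕ, Q ≤ q → Solves α β q (b * (q : ℝ) ^ (-τ)) →
          ∀ n : ℕ, 1 ≤ n → |(n : ℝ) - G q| ≤ (q : ℝ) ^ κ → Descends B ((n : ℝ) ^ δ) n) ∧
    (∀ (B δ : ℝ) (n : ℕ), 1 ≤ n → Descends B ((n : ℝ) ^ δ) n →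
      (∀ u : ℕ, 1 ≤ u → (u : ℝ) ≤ (n : ℝ) ^ δ → Fast B u) → Fast B n) ∧
    ∀ a d : ℝ, 0 < a → 1 ≤ d → Expanding (fun v => a * (v : ℝ) ^ d) d := by
  refine ⟨fun ε hε => ?_, ?_, inherit, fun a d ha hd => expanding_pow ha hd⟩
  · obtain ⟨c, hc, h⟩ := regular_count hε
    refine ⟨c, hc, fun G d hG κ hκ hκ1 m β τ hτ v δ hv hv1 hδ => ?_⟩
    obtain ⟨E, hE, hE2⟩ := approx_good (fun n : ℕ => 1 ≤ n) (fun n => Regular ε ((n : ℝ) ^ δ) ((n : ℝ) ^ (1 + v)) n)
      (fun n : ℕ => (n : ℝ)) hG (s := 1 - min v (c * δ)) (κ := κ) (by linarith [min_le_left v (c * δ)]) hκ hκ1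
      (h v δ hv hv1 hδ) β hτ
    exact ⟨E, hE, hE2⟩
  · obtain ⟨B₁, hB₁, h⟩ := descent_count
    refine ⟨B₁, hB₁, fun B hB G d hG κ hκ hκ1 m β τ hτ δ hδ hδ1 => ?_⟩
    obtain ⟨E, hE, hE2⟩ := approx_good (fun n : ℕ => 1 ≤ n) (fun n => Descends B ((n : ℝ) ^ δ) n)
      (fun n : ℕ => (n : ℝ)) hG (s := 1 - 6 / 100 * δ) (κ := κ) (by linarith) hκ hκ1 (h B hB δ hδ hδ1) β hτ
    exact ⟨E, hE, hE2⟩

end Pool.Agent.Results.MP_a1568a_nt.GoodApproximationsH35
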