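import Pool.Agent.V7H35.CollatzCount
import Pool.Agent.R482.ST.Star

/-!
# The `3x+1` map in logarithmic time at all integers near powers, orbits and other sequences

Let `f_k`, `k = 0, 1, 2, …`, be positive functions on `(a, ∞)`, `a ≥ 0`, such that `f_k(t) / t` is nondecreasing, and such
that the sequence `f_k(t)` has exponent of convergence at most `τ` for each `t > a`: for instance `f_k(t) = t ^ (v_k)` for
exponents `v_k ≥ 1` (`τ = 0`; all powers, the powers `t ^ (3 ^ k)` of Mills, …), the orbits `f_k(t) = g (g (⋯ g (t)))` of any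
map `g` with `g(t) > t` and `g(t) / t` nondecreasing (`τ = 0`; for instance `t² + c`), and `f_k(t) = v_k t`. Let `θ < 1`.

* For every `ε > 0` there is `c > 0` such that for `0 < v ≤ 1`, `δ > 0` and all `α > a` outside a set of Hausdorff dimension at
  most `(1 - min v (c δ) + τ) / (1 - θ)`, for all but finitely many `k`, the trajectory of EVERY integer `n ≥ 1` with
  `|n - f_k(α)| ≤ b f_k(α) ^ θ` follows the law of the random walk: it reaches a value `≤ n^δ` in at most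
  `(1 + ε) (2 / log (4/3)) log n` steps, and until then `log T^j n` is `log n - (j/2) log (4/3)` up to `ε log n`, and
  `T^j n ≤ n^(1+v)`.
* Let `B` be large and `0 < δ ≤ 1`. For all `α > a` outside a set of Hausdorff dimension at most `(1 - 0.06 δ + τ) / (1 - θ)`
  and all but finitely many `k` the conjectured inequality is inherited by EVERY such `n`: `n` reaches some `u ≤ n^δ` in at
  most `B log (n / u)` steps; so `n` reaches `1` in at most `B log n` steps, if this is true for all `u ≤ n^δ`.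

For powers and orbits the bounds are smaller than `1` if `θ` is small, and so this holds for almost all `α`: for almost every
`α > 1`, for all large `k` the integer parts of `α ^ k` and all integers near them descend in this way.
-/

set_option autoImplicit false

namespace Pool.Agent.Results.MP_a1568a_nt.StarshapedSequencesH35

open Pool.Agent.Results.MP_a1568a_nt.PowerSavingLaw (T Regular)
open Pool.Agent.Results.MP_a1568a_nt.MultiplicativeValues (Descends Fast)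
open Pool.Agent.V7H35.CollatzCount (regular_count descent_count inherit)

/-- the functions `f n` are positive on `(a, ∞)`, `a ≥ 0`, and `f n x / x` is nondecreasing there -/
def Starshaped (a : ℝ) (f : ℕ → ℝ → ℝ) : Prop :=
  0 ≤ a ∧ ∀ n : ℕ, ∀ x y : ℝ, a < x → x ≤ y → 0 < f n x ∧ f n x / x ≤ f n y / y

/-- for each `x > a` the exponent of convergence of the sequence `f n x` is at most `τ` -/
def ExpLe (a : ℝ) (f : ℕ → ℝ → ℝ) (τ : ℝ) : Prop :=
  ∀ x : ℝ, a < x → ∀ t : ℝ, τ < t → Summable (fun n : ℕ => (f n x) ^ (-t))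

lemma transfer (Good : ℕ → Prop) {s : ℝ} (hs : 0 ≤ s)
    (hS : ∀ ε : ℝ, 0 < ε → ∃ C : ℝ, ∀ X : ℝ, 1 ≤ X → {n : ℕ | (1 ≤ n ∧ ¬ Good n) ∧ (n : ℝ) ≤ X}.Finite ∧
      ({n : ℕ | (1 ≤ n ∧ ¬ Good n) ∧ (n : ℝ) ≤ X}.ncard : ℝ) ≤ C * X ^ (s + ε))
    {a : ℝ} {f : ℕ → ℝ → ℝ} {τ θ : ℝ} (hf : Starshaped a f) (hτ : 0 ≤ τ) (hE : ExpLe a f τ) (hθ1 : θ < 1) :
    ∃ E : Set ℝ, dimH E ≤ ENNReal.ofReal ((s + τ) / (1 - θ)) ∧ ∀ α : ℝ, a < α → α ∉ E → ∀ b : ℝ,
      ∃ k₀ : ℕ, ∀ k : ℕ, k₀ ≤ k → ∀ n : ℕ, 1 ≤ n → |(n : ℝ) - f k α| ≤ b * (f k α) ^ θ → Good n := by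
  obtain ⟨E, h1, h2⟩ := Pool.Agent.R482.ST.windows {n : ℕ | 1 ≤ n ∧ ¬ Good n} (fun n : ℕ => (n : ℝ)) hf hτ hE hs hθ1 hS
  refine ⟨E, h1, fun α hα hαE b => ?_⟩
  obtain ⟨k₀, hk⟩ := h2 α hα hαE b
  refine ⟨k₀, fun k hk1 n hn h3 => ?_⟩
  by_contra hcon
  exact absurd h3 (not_le.2 (hk k hk1 n ⟨hn, hcon⟩))

/-- **Trajectories near powers, orbits and other sequences.** Let `f` be starshaped functions on `(a, ∞)` of exponent of
convergence at most `τ ≥ 0` and `θ < 1`. (1) For every `ε > 0` there is `c > 0`, not depending on `f`, such that for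
`0 < v ≤ 1` and `δ > 0` there is a set `E` of Hausdorff dimension at most `(1 - min v (c δ) + τ) / (1 - θ)` such that for all
`α > a` outside `E` and all `b`, for all but finitely many `k`, EVERY integer `n ≥ 1` with `|n - f_k(α)| ≤ b f_k(α) ^ θ`
satisfies `Regular ε (n^δ) (n^(1+v))`. (2) There is `B₁` such that for `B ≥ B₁` and `0 < δ ≤ 1` there is a set `E` of Hausdorff
dimension at most `(1 - 0.06 δ + τ) / (1 - θ)` such that for all `α > a` outside `E` and all `b`, for all but finitely many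
`k`, EVERY integer `n ≥ 1` with `|n - f_k(α)| ≤ b f_k(α) ^ θ` reaches some `u ≤ n^δ` after at most `B log (n / u)` steps.
(3) Such an `n` reaches `1` after at most `B log n` steps, if this is true for all `u ≤ n^δ`. (4) - (6) The functions `v_n x`,
`v_n > 0`, are starshaped on `(0, ∞)`, of exponent `τ` if `v` has exponent of convergence at most `τ`; the functions
`x ^ (v_n)`, `v_n ≥ 1`, are starshaped on `(1, ∞)`, of exponent `0` if the sums of `exp (-t v_n)` converge for `t > 0`; and the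
iterates of a map `g` with `g(x) > x` for `x > a` and `g(x) / x` nondecreasing are starshaped on `(a, ∞)`, of exponent `0`. -/
theorem result :
    (∀ ε : ℝ, 0 < ε → ∃ c : ℝ, 0 < c ∧ ∀ (a : ℝ) (f : ℕ → ℝ → ℝ) (τ θ : ℝ), Starshaped a f → 0 ≤ τ → ExpLe a f τ →
      θ < 1 → ∀ v δ : ℝ, 0 < v → v ≤ 1 → 0 < δ →
      ∃ E : Set ℝ, dimH E ≤ ENNReal.ofReal ((1 - min v (c * δ) + τ) / (1 - θ)) ∧ ∀ α : ℝ, a < α → α ∉ E → ∀ b : ℝ,
        ∃ k₀ : ℕ, ∀ k : ℕ, k₀ ≤ k → ∀ n : ℕ, 1 ≤ n → |(n : ℝ) - f k α| ≤ b * (f k α) ^ θ →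
          Regular ε ((n : ℝ) ^ δ) ((n : ℝ) ^ (1 + v)) n) ∧
    (∃ B₁ : ℝ, 0 < B₁ ∧ ∀ B : ℝ, B₁ ≤ B → ∀ (a : ℝ) (f : ℕ → ℝ → ℝ) (τ θ : ℝ), Starshaped a f → 0 ≤ τ → ExpLe a f τ →
      θ < 1 → ∀ δ : ℝ, 0 < δ → δ ≤ 1 →
      ∃ E : Set ℝ, dimH E ≤ ENNReal.ofReal ((1 - 6 / 100 * δ + τ) / (1 - θ)) ∧ ∀ α : ℝ, a < α → α ∉ E → ∀ b : ℝ,
        ∃ k₀ : ℕ, ∀ k : ℕ, k₀ ≤ k → ∀ n : ℕ, 1 ≤ n → |(n : ℝ) - f k α| ≤ b * (f k α) ^ θ →
          Descends B ((n : ℝ) ^ δ) n) ∧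
    (∀ (B δ : ℝ) (n : ℕ), 1 ≤ n → Descends B ((n : ℝ) ^ δ) n →
      (∀ u : ℕ, 1 ≤ u → (u : ℝ) ≤ (n : ℝ) ^ δ → Fast B u) → Fast B n) ∧
    (∀ (v : ℕ → ℝ) (τ : ℝ), (∀ n, 0 < v n) → (∀ t : ℝ, τ < t → Summable (fun n : ℕ => (v n) ^ (-t))) →
      Starshaped 0 (fun n x => v n * x) ∧ ExpLe 0 (fun n x => v n * x) τ) ∧
    (∀ v : ℕ → ℝ, (∀ n, 1 ≤ v n) → (∀ t : ℝ, 0 < t → Summable fun n : ℕ => Real.exp (-(t * v n))) →
      Starshaped 1 (fun n x => x ^ (v n)) ∧ ExpLe 1 (fun n x => x ^ (v n)) 0) ∧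
    (∀ (a : ℝ) (g : ℝ → ℝ), 0 ≤ a → (∀ x y : ℝ, a < x → x ≤ y → g x / x ≤ g y / y) → (∀ x : ℝ, a < x → x < g x) →
      Starshaped a (fun n x => g^[n] x) ∧ ExpLe a (fun n x => g^[n] x) 0) := by
  refine ⟨fun ε hε => ?_, ?_, inherit, Pool.Agent.R482.ST.ex_mul, Pool.Agent.R482.ST.ex_pow,
    Pool.Agent.R482.ST.ex_orbit⟩
  · obtain ⟨c, hc, h⟩ := regular_count hε
    refine ⟨c, hc, fun a f τ θ hf hτ hE hθ v δ hv hv1 hδ => ?_⟩
    exact transfer (fun n => Regular ε ((n : ℝ) ^ δ) ((n : ℝ) ^ (1 + v)) n)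
      (by linarith [min_le_left v (c * δ)]) (h v δ hv hv1 hδ) hf hτ hE hθ
  · obtain ⟨B₁, hB₁, h⟩ := descent_count
    refine ⟨B₁, hB₁, fun B hB a f τ θ hf hτ hE hθ δ hδ hδ1 => ?_⟩
    exact transfer (fun n => Descends B ((n : ℝ) ^ δ) n) (by linarith) (h B hB δ hδ hδ1) hf hτ hE hθ

end Pool.Agent.Results.MP_a1568a_nt.StarshapedSequencesH35
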