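import Pool.Agent.V7H35.CollatzCount
import Pool.Agent.N760.IT.D

/-!
# The `3x+1` map in logarithmic time at all integers near the members of almost all orbits of Euler's function

Let `φ_k` be the `k`-th iterate of Euler's function, `φ_0(m) = m`. Let `f` be a positive multiplicative function of at most
polynomial growth such that `f p ≤ M p` for the large primes `p`, with different values at different large primes; for example
the identity, Euler's function or the sum of the divisors. Let `G` have steps bounded below by a positive constant and growth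
at most `v ^ d`, for example `G v = v`, and `κ ≥ 0`.

* For every `ε > 0` there is `c > 0` such that, if `d (1 - min v (c δ)) + κ < 1`, then there is `K(m)` tending to infinity such
  that for almost all `m`, for all `k ≤ K(m)`, with `v' = f(φ_k(m))`, the trajectory of EVERY integer `n ≥ 1` with
  `|n - G v'| ≤ v' ^ κ` follows the law of the random walk: it reaches a value `≤ n^δ` in at most
  `(1 + ε) (2 / log (4/3)) log n` steps, and until then `log T^j n` is `log n - (j/2) log (4/3)` up to `ε log n`, and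
  `T^j n ≤ n^(1+v)`.
* Let `B` be large, `0 < δ ≤ 1` and `d (1 - 0.06 δ) + κ < 1`. Then the same is true for the property: `n` reaches some
  `u ≤ n^δ` in at most `B log (n / u)` steps; so `n` reaches `1` in at most `B log n` steps, if `u` reaches `1` in at most
  `B log u` steps.

The values `f(φ_k(m))` are in general taken with very large multiplicities, and so this does not follow from the sizes of the
exceptional sets.
-/

set_option autoImplicit false

namespace Pool.Agent.Results.MP_a1568a_nt.TotientOrbitsH35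

open Filter
open Pool.Agent.Results.MP_a1568a_nt.PowerSavingLaw (T Regular)
open Pool.Agent.Results.MP_a1568a_nt.MultiplicativeValues (Descends Fast)
open Pool.Agent.V7H35.CollatzCount (regular_count descent_count inherit)
open Pool.Agent.N733.TG (LM Expanding lm_totient lm_sigma expanding_pow)
open Pool.Agent.N760.IT (orb lm_id orbit_good)
open Pool.Agent.N826.IT.Orb (AlmostAll)

/-- **Trajectories near the orbits of Euler's function.** Let `f` be multiplicative and positive, of at most polynomial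
growth, with `f p ≤ M p` at the large primes, and injective there (`LM f`). Let `G` have steps `≥ const > 0` and growth at most
`v ^ d`, and `κ ≥ 0`. Write `v' = f(φ_k(m))` (`orb f k m`). (1) For every `ε > 0` there is `c > 0`, not depending on `f`, `G`,
such that for `0 < v ≤ 1`, `δ > 0` and `d (1 - min v (c δ)) + κ < 1` there is `K(m)` tending to infinity such that for almost
all `m`, for all `k ≤ K(m)`, EVERY integer `n ≥ 1` with `|n - G v'| ≤ v' ^ κ` satisfies `Regular ε (n^δ) (n^(1+v))`. (2) There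
is `B₁` such that for `B ≥ B₁`, `0 < δ ≤ 1` and `d (1 - 0.06 δ) + κ < 1` there is `K(m)` tending to infinity such that for almost
all `m`, for all `k ≤ K(m)`, EVERY integer `n ≥ 1` with `|n - G v'| ≤ v' ^ κ` reaches some `u ≤ n^δ` after at most
`B log (n / u)` steps. (3) Such an `n` reaches `1` after at most `B log n` steps, if this is true for all `u ≤ n^δ`. (4), (5)
The identity, Euler's function and the sum of the divisors are examples of such functions `f`, and `a v ^ d` with `a > 0`,
`d ≥ 1` is an example of `G`. -/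
theorem result :
    (∀ ε : ℝ, 0 < ε → ∃ c : ℝ, 0 < c ∧
      ∀ f : ℕ → ℕ, LM f → ∀ (G : ℕ → ℝ) (d : ℝ), Expanding G d → ∀ v δ κ : ℝ, 0 < v → v ≤ 1 → 0 < δ → 0 ≤ κ →
        d * (1 - min v (c * δ)) + κ < 1 → ∃ K : ℕ → ℕ, Tendsto K atTop atTop ∧
          AlmostAll (fun m => ∀ k ≤ K m, ∀ n : ℕ, 1 ≤ n → |(n : ℝ) - G (orb f k m)| ≤ (orb f k m : ℝ) ^ κ →
            Regular ε ((n : ℝ) ^ δ) ((n : ℝ) ^ (1 + v)) n)) ∧
    (∃ B₁ : ℝ, 0 < B₁ ∧ ∀ B : ℝ, B₁ ≤ B →
      ∀ f : ℕ → ℕ, LM f → ∀ (G : ℕ → ℝ) (d : ℝ), Expanding G d → ∀ δ κ : ℝ, 0 < δ → δ ≤ 1 → 0 ≤ κ →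
        d * (1 - 6 / 100 * δ) + κ < 1 → ∃ K : ℕ → ℕ, Tendsto K atTop atTop ∧
          AlmostAll (fun m => ∀ k ≤ K m, ∀ n : ℕ, 1 ≤ n → |(n : ℝ) - G (orb f k m)| ≤ (orb f k m : ℝ) ^ κ →
            Descends B ((n : ℝ) ^ δ) n)) ∧
    (∀ (B δ : ℝ) (n : ℕ), 1 ≤ n → Descends B ((n : ℝ) ^ δ) n →
      (∀ u : ℕ, 1 ≤ u → (u : ℝ) ≤ (n : ℝ) ^ δ → Fast B u) → Fast B n) ∧
    (LM (fun m => m) ∧ LM Nat.totient ∧ LM (fun m => ∑ d ∈ m.divisors, d)) ∧
    ∀ a d : ℝ, 0 < a → 1 ≤ d → Expanding (fun v => a * (v : ℝ) ^ d) d := by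
  refine ⟨fun ε hε => ?_, ?_, inherit, ⟨lm_id, lm_totient, lm_sigma⟩, fun a d ha hd => expanding_pow ha hd⟩
  · obtain ⟨c, hc, h⟩ := regular_count hε
    refine ⟨c, hc, fun f hf G d hG v δ κ hv hv1 hδ hκ h1 => ?_⟩
    exact orbit_good (fun n : ℕ => 1 ≤ n) (fun n => Regular ε ((n : ℝ) ^ δ) ((n : ℝ) ^ (1 + v)) n)
      (fun n : ℕ => (n : ℝ)) hf hG (s := 1 - min v (c * δ)) (κ := κ) (by linarith [min_le_left v (c * δ)]) hκ h1
      (h v δ hv hv1 hδ)
  · obtain ⟨B₁, hB₁, h⟩ := descent_count
    refine ⟨B₁, hB₁, fun B hB f hf G d hG δ κ hδ hδ1 hκ h1 => ?_⟩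
    exact orbit_good (fun n : ℕ => 1 ≤ n) (fun n => Descends B ((n : ℝ) ^ δ) n) (fun n : ℕ => (n : ℝ)) hf hG
      (s := 1 - 6 / 100 * δ) (κ := κ) (by linarith) hκ h1 (h B hB δ hδ hδ1)

end Pool.Agent.Results.MP_a1568a_nt.TotientOrbitsH35
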